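import Pool.Agent.K1H74.PB.Defs

/-!
# One-way multicounter machines with bounded reversals: basic facts
-/

set_option autoImplicit false

namespace Pool.Agent.K1H74.PB

variable {A : Type} {M : Machine A}

theorem StepBy.det {m : Move A M.Q M.k} {x y y' : Conf M} (h : StepBy M m x y)
    (h' : StepBy M m x y') : y = y' := by
  apply Conf.ext
  · rw [h.p, h'.p]
  · rw [h.w, h'.w]
  · funext i
    have h1 := h.c i
    have h2 := h'.c i
    have : (y.c i : ℤ) = y'.c i := by rw [h1, h2]
    exact_mod_cast this

theorem Path.append {x y z : Conf M} {ms ms' : List (Move A M.Q M.k)} (h : Path M x ms y)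
    (h' : Path M y ms' z) : Path M x (ms ++ ms') z := by
  induction h with
  | nil x => exact h'
  | cons hs _ ih => exact Path.cons hs (ih h')

theorem Path.length_le {x y : Conf M} {ms : List (Move A M.Q M.k)} (h : Path M x ms y) :
    y.w.length ≤ x.w.length := by
  induction h with
  | nil x => exact le_rfl
  | cons hs _ ih =>
    refine ih.trans ?_
    rw [hs.w]
    split_ifs
    · simp
    · exact le_rfl

theorem Path.mem {x y : Conf M} {ms : List (Move A M.Q M.k)} (h : Path M x ms y) :
    ∀ m ∈ ms, m ∈ M.moves := by
  induction h with
  | nil x => simp
  | cons hs _ ih =>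
    intro m hm
    rcases List.mem_cons.1 hm with rfl | hm
    · exact hs.mem
    · exact ih m hm

/-- if no input is read then no move advances the head -/
theorem Path.stay {x y : Conf M} {ms : List (Move A M.Q M.k)} (h : Path M x ms y)
    (hw : x.w = []) : y.w = [] ∧ ∀ m ∈ ms, m.adv = false := by
  induction h with
  | nil x => exact ⟨hw, by simp⟩
  | @cons x y z m ms hs _ ih =>
    have h1 : m.adv = false := by
      by_contra hcon
      exact hs.adv (by simpa using hcon) hw
    have h2 : y.w = [] := by
      rw [hs.w, h1]
      simpa using hw
    obtain ⟨h3, h4⟩ := ih h2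
    refine ⟨h3, fun m' hm' => ?_⟩
    rcases List.mem_cons.1 hm' with rfl | hm'
    · exact h1
    · exact h4 m' hm'

theorem Reachable.path {x y : Conf M} {ms : List (Move A M.Q M.k)} (hx : Reachable M x)
    (h : Path M x ms y) : Reachable M y := by
  obtain ⟨w, ms0, h0⟩ := hx
  exact ⟨w, ms0 ++ ms, h0.append h⟩

theorem reachable_init (w : List A) : Reachable M (init M w) := ⟨w, [], Path.nil _⟩

/-- two computations of a deterministic machine are comparable -/
theorem Det.compare {s : Bool} (hD : Det M s) {x y y' : Conf M} {ms ms' : List (Move A M.Q M.k)}
    (h : Path M x ms y) (h' : Path M x ms' y') (hx : Reachable M x)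
    (hl : ms.length ≤ ms'.length) : ∃ t, ms' = ms ++ t ∧ Path M y t y' := by
  induction h generalizing ms' with
  | nil x => exact ⟨ms', rfl, h'⟩
  | @cons x y1 z m ms hs t ih =>
    cases h' with
    | nil => simp at hl
    | @cons _ y2 _ m' ms'' hs' t' =>
      have hm : m = m' := hD x (fun _ => hx) m m' y1 y2 hs hs'
      subst hm
      have hy : y1 = y2 := hs.det hs'
      subst hy
      have hl' : ms.length ≤ ms''.length := by simpa using hl
      obtain ⟨u, hu1, hu2⟩ := ih t' (hx.path (Path.cons hs (Path.nil _))) hl'
      exact ⟨u, by rw [hu1]; rfl, hu2⟩

/-- splitting a computation at the moment when the first part of the input has been read -/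
theorem Path.split {x y : Conf M} {ms : List (Move A M.Q M.k)} (h : Path M x ms y) :
    ∀ (u v : List A), x.w = u ++ v → y.w.length ≤ v.length →
    ∃ ms1 ms2 q c, ms = ms1 ++ ms2 ∧ Path M ⟨q, v, c⟩ ms2 y ∧
      ∀ v' : List A, Path M ⟨x.q, u ++ v', x.c⟩ ms1 ⟨q, v', c⟩ := by
  induction h with
  | nil x =>
    intro u v hw hl
    have hu : u = [] := by
      rw [hw, List.length_append] at hl
      exact List.length_eq_zero_iff.1 (by omega)
    subst hu
    refine ⟨[], [], x.q, x.c, rfl, ?_, fun v' => Path.nil _⟩
    have : x = ⟨x.q, v, x.c⟩ := Conf.ext rfl hw rfl
    rw [← this]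
    exact Path.nil _
  | @cons x y1 z m ms hs t ih =>
    intro u v hw hl
    cases u with
    | nil =>
      refine ⟨[], m :: ms, x.q, x.c, rfl, ?_, fun v' => Path.nil _⟩
      have : x = ⟨x.q, v, x.c⟩ := Conf.ext rfl hw rfl
      rw [← this]
      exact Path.cons hs t
    | cons a u =>
      have hstep : ∀ v' : List A, StepBy M m ⟨x.q, (a :: u) ++ v', x.c⟩
          ⟨y1.q, (if m.adv = true then u else a :: u) ++ v', y1.c⟩ := by
        intro v'
        refine ⟨hs.mem, hs.q, ?_, hs.z, hs.p, hs.c, ?_, fun _ => by simp⟩
        · rw [hs.a, hw]; rfl
        · split_ifs <;> rfl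
      have hw1 : y1.w = (if m.adv = true then u else a :: u) ++ v := by
        rw [hs.w, hw]
        split_ifs <;> rfl
      obtain ⟨ms1, ms2, q, c, e1, e2, e3⟩ := ih _ v hw1 hl
      exact ⟨m :: ms1, ms2, q, c, by rw [e1]; rfl, e2, fun v' => Path.cons (hstep v') (e3 v')⟩

/-! ## Reversals -/

theorem changes_append (l1 l2 l3 : List SignType) (h1 : changes l1 = changes l2)
    (h2 : l1.getLast? = l2.getLast?) : changes (l1 ++ l3) = changes (l2 ++ l3) := by
  have key : ∀ l l' : List SignType, changes (l ++ l') = changes l + changes l' +
      (match l.getLast?, l'.head? with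
        | some a, some b => if a = b then 0 else 1
        | _, _ => 0) := by
    intro l
    induction l with
    | nil => intro l'; simp [changes]
    | cons a l ih =>
      intro l'
      cases l with
      | nil =>
        cases l' with
        | nil => simp [changes]
        | cons b l' => simp [changes]; omega
      | cons b l =>
        have := ih l'
        simp only [List.cons_append] at this ⊢
        simp only [changes]
        rw [this]
        rw [List.getLast?_cons_cons]
        omega
  rw [key, key, h1, h2]

theorem changes_le_append (l1 l2 : List SignType) : changes l1 ≤ changes (l1 ++ l2) := by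
  induction l1 with
  | nil => simp [changes]
  | cons a l ih =>
    cases l with
    | nil => simp [changes]
    | cons b l =>
      simp only [List.cons_append, changes] at ih ⊢
      omega

theorem changes_replicate (n : ℕ) (s : SignType) : changes (List.replicate n s) = 0 := by
  induction n with
  | zero => rfl
  | succ n ih =>
    cases n with
    | zero => rfl
    | succ n =>
      rw [List.replicate_succ, List.replicate_succ, changes, ← List.replicate_succ, ih]
      simp

theorem changes_two (n m : ℕ) (s t : SignType) :
    changes (List.replicate n s ++ List.replicate m t) ≤ 1 := by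
  induction n with
  | zero => simp [changes_replicate]
  | succ n ih =>
    cases n with
    | zero =>
      cases m with
      | zero => simp [changes]
      | succ m =>
        have := changes_replicate (m + 1) t
        simp only [List.replicate_succ, List.replicate_zero, List.nil_append, List.cons_append,
          changes] at this ⊢
        rw [this]
        split_ifs <;> omega
    | succ n =>
      simp only [List.replicate_succ, List.cons_append, changes] at ih ⊢
      simpa using ih

theorem changes_zero {l : List SignType} (h : changes l = 0) : ∀ s ∈ l, some s = l.head? := by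
  induction l with
  | nil => simp
  | cons a l ih =>
    cases l with
    | nil => simp
    | cons b l =>
      simp only [changes] at h
      have h1 : a = b := by
        by_contra hne
        rw [if_neg hne] at h
        omega
      subst h1
      simp only [if_true, zero_add] at h
      intro s hs
      rcases List.mem_cons.1 hs with rfl | hs
      · rfl
      · have := ih h s hs
        simpa using this

end Pool.Agent.K1H74.PB
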