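import Mathlib

/-!
# One-way multicounter machines with bounded reversals: definitions
-/

set_option autoImplicit false

namespace Pool.Agent.K1H74.PB

/-- A move of a machine with states `Q`, input alphabet `A` and `k` counters: it can be made in state
`q` when `a` is scanned (`none`: the input word has been read completely) and exactly the counters
`i` with `z i = true` are zero; the new state is `p`, counter `i` changes by `d i`, and the head
moves to the right iff `adv = true`. -/
@[ext] structure Move (A Q : Type) (k : ℕ) where
  /-- the state -/
  q : Q
  /-- the scanned symbol -/
  a : Option A
  /-- the zero pattern of the counters -/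
  z : Fin k → Bool
  /-- the new state -/
  p : Q
  /-- the changes of the counters -/
  d : Fin k → SignType
  /-- whether the head advances -/
  adv : Bool

/-- A one-way multicounter machine (nondeterministic, able to test its counters for zero). -/
structure Machine (A : Type) where
  /-- the states -/
  Q : Type
  /-- there are finitely many states -/
  fin : Finite Q
  /-- the number of counters -/
  k : ℕ
  /-- the initial state -/
  start : Q
  /-- the final states -/
  final : Set Q
  /-- the moves -/
  moves : Set (Move A Q k)

/-- A configuration: the state, the rest of the input word, the counters. -/
@[ext] structure Conf {A : Type} (M : Machine A) where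
  /-- the state -/
  q : M.Q
  /-- the rest of the input word; its first letter is scanned -/
  w : List A
  /-- the contents of the counters -/
  c : Fin M.k → ℕ

variable {A : Type} (M : Machine A)

/-- The initial configuration with input word `w`. -/
def init (w : List A) : Conf M := ⟨M.start, w, fun _ => 0⟩

/-- The move `m` is possible in the configuration `x` and leads to `y`. A move which would make a
counter negative is not possible. -/
structure StepBy (m : Move A M.Q M.k) (x y : Conf M) : Prop where
  mem : m ∈ M.moves
  q : m.q = x.q
  a : m.a = x.w.head?
  z : ∀ i, m.z i = true ↔ x.c i = 0
  p : y.q = m.p
  c : ∀ i, (y.c i : ℤ) = (x.c i : ℤ) + (m.d i : ℤ)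
  w : y.w = if m.adv = true then x.w.tail else x.w
  adv : m.adv = true → x.w ≠ []

/-- The sequence `ms` of moves leads from `x` to `y`. -/
inductive Path : Conf M → List (Move A M.Q M.k) → Conf M → Prop
  | nil (x : Conf M) : Path x [] x
  | cons {x y z : Conf M} {m : Move A M.Q M.k} {ms : List (Move A M.Q M.k)}
      (h : StepBy M m x y) (t : Path y ms z) : Path x (m :: ms) z

/-- The number of changes between consecutive members of a list. -/
def changes : List SignType → ℕ
  | [] => 0
  | [_] => 0
  | a :: b :: l => (if a = b then 0 else 1) + changes (b :: l)

/-- The number of reversals in a sequence of moves: for every counter the number of changes from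
increasing to decreasing or from decreasing to increasing. -/
def reversals {Q : Type} {k : ℕ} (ms : List (Move A Q k)) : ℕ :=
  ∑ i : Fin k, changes ((ms.map fun m => m.d i).filter fun s => s ≠ 0)

/-- The set of the words which have an accepting computation with at most `c` reversals: all input
has been read, the state is final and all counters are zero. -/
def LR (c : ℕ) : Set (List A) :=
  {w | ∃ (ms : List (Move A M.Q M.k)) (y : Conf M), Path M (init M w) ms y ∧ y.w = [] ∧
    y.q ∈ M.final ∧ (∀ i, y.c i = 0) ∧ reversals ms ≤ c}

/-- The configuration `x` occurs in a computation. -/
def Reachable (x : Conf M) : Prop := ∃ w ms, Path M (init M w) ms x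

/-- Quasi-realtime: there is a bound for the number of consecutive moves of a computation during
which the head stays on the same cell. -/
def Quasi : Prop := ∃ d : ℕ, ∀ (x : Conf M), Reachable M x → ∀ ms y, Path M x ms y →
  (∀ m ∈ ms, m.adv = false) → ms.length ≤ d

/-- Determinism: in every configuration (for `s = true` only: in every configuration that occurs in
a computation) at most one move is possible. -/
def Det (s : Bool) : Prop := ∀ x : Conf M, (s = true → Reachable M x) →
  ∀ m m' y y', StepBy M m x y → StepBy M m' x y' → m = m'

/-- Partially blind: the moves do not depend on which counters are zero (except that a move which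
would make a counter negative is not possible). -/
def PartBlind : Prop := ∀ m ∈ M.moves, ∀ z, { m with z := z } ∈ M.moves

/-- For `e = false`: no move is possible after the input word has been read completely. -/
def EndOk (e : Bool) : Prop := e = false → ∀ m ∈ M.moves, m.a ≠ none

/-- The class `QR-DCOUNTER` of machines. -/
def DCounter (e s : Bool) : Prop := Quasi M ∧ Det M s ∧ EndOk M e

/-- The class `QR-DPBLIND` of machines. -/
def DPBlind (e s : Bool) : Prop := Quasi M ∧ Det M s ∧ EndOk M e ∧ PartBlind M

/-- The class of the languages over `A` accepted by the machines of the class `P` with at most `c`
reversals. -/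
def Langs (A : Type) (c : ℕ) (P : Machine A → Prop) : Set (Set (List A)) :=
  {L | ∃ M : Machine A, P M ∧ L = LR M c}

end Pool.Agent.K1H74.PB
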