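import Pool.Agent.K1H74.PB.Pos

/-!
# No deterministic partially blind machine accepts the language of the words `a ^ n b ^ m`, `n < m`
-/

set_option autoImplicit false

namespace Pool.Agent.K1H74.PB

section general

variable {A : Type} {M : Machine A}

/-- a partially blind machine makes the same moves with larger counters -/
theorem Path.mimic (hB : PartBlind M) {x y : Conf M} {ms : List (Move A M.Q M.k)}
    (h : Path M x ms y) (e : Fin M.k → ℕ) :
    ∃ ms', Path M ⟨x.q, x.w, fun i => x.c i + e i⟩ ms' ⟨y.q, y.w, fun i => y.c i + e i⟩ := by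
  induction h with
  | nil x => exact ⟨[], Path.nil _⟩
  | @cons x y z m ms hs t ih =>
    obtain ⟨ms', h'⟩ := ih
    refine ⟨{ m with z := fun i => decide (x.c i + e i = 0) } :: ms', Path.cons ?_ h'⟩
    refine ⟨hB m hs.mem _, hs.q, hs.a, fun i => by simp, hs.p, fun i => ?_, hs.w, hs.adv⟩
    have := hs.c i
    push_cast
    rw [this]
    ring

/-- the counters change by at most one in one step -/
theorem Path.count_le {x y : Conf M} {ms : List (Move A M.Q M.k)} (h : Path M x ms y)
    (i : Fin M.k) : y.c i ≤ x.c i + ms.length ∧ x.c i ≤ y.c i + ms.length := by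
  induction h with
  | nil x => simp
  | @cons x y z m ms hs t ih =>
    have h1 := hs.c i
    have h2 : (m.d i : ℤ) = 0 ∨ (m.d i : ℤ) = -1 ∨ (m.d i : ℤ) = 1 := by
      cases m.d i
      · left; rfl
      · right; left; rfl
      · right; right; rfl
    rw [List.length_cons]
    omega

/-- the reversals of a computation depend only on some data of its first part -/
theorem reversals_append {Q : Type} {k : ℕ} (l1 l2 l3 : List (Move A Q k))
    (h : ∀ i : Fin k, changes ((l1.map fun m => m.d i).filter fun s => s ≠ 0) =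
        changes ((l2.map fun m => m.d i).filter fun s => s ≠ 0) ∧
      ((l1.map fun m => m.d i).filter fun s => s ≠ 0).getLast? =
        ((l2.map fun m => m.d i).filter fun s => s ≠ 0).getLast?) :
    reversals (l1 ++ l3) = reversals (l2 ++ l3) := by
  unfold reversals
  refine Finset.sum_congr rfl fun i _ => ?_
  rw [List.map_append, List.map_append, List.filter_append, List.filter_append]
  exact changes_append _ _ _ (h i).1 (h i).2

theorem changes_le_reversals {Q : Type} {k : ℕ} (l1 l2 : List (Move A Q k)) (i : Fin k) :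
    changes ((l1.map fun m => m.d i).filter fun s => s ≠ 0) ≤ reversals (l1 ++ l2) := by
  have h1 : changes (((l1 ++ l2).map fun m => m.d i).filter fun s => s ≠ 0) ≤
      reversals (l1 ++ l2) :=
    Finset.single_le_sum (f := fun i : Fin k =>
      changes (((l1 ++ l2).map fun m => m.d i).filter fun s => s ≠ 0)) (fun _ _ => Nat.zero_le _)
      (Finset.mem_univ i)
  refine le_trans ?_ h1
  rw [List.map_append, List.filter_append]
  exact changes_le_append _ _

end general

theorem wd_inj {n m n' m' : ℕ} (h : wd n m = wd n' m') : n = n' ∧ m = m' := by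
  have h1 := congrArg (List.count false) h
  have h2 := congrArg (List.count true) h
  simp only [wd, List.count_append, List.count_replicate] at h1 h2
  simpa using And.intro h1 h2

variable {M : Machine Bool} {c : ℕ}

theorem mem_L0 {n m : ℕ} : wd n m ∈ L0 ↔ n < m := by
  constructor
  · rintro ⟨n', m', h, h'⟩
    obtain ⟨rfl, rfl⟩ := wd_inj h'
    exact h
  · exact fun h => ⟨n, m, h, rfl⟩

/-- the computation on `a ^ n b ^ (n + 1)` -/
theorem exists_data (hL : LR M c = L0) (n : ℕ) :
    ∃ (ms1 ms2 : List (Move Bool M.Q M.k)) (q : M.Q) (cc : Fin M.k → ℕ) (y : Conf M),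
      (∀ v' : List Bool, Path M (init M (List.replicate n false ++ v')) ms1 ⟨q, v', cc⟩) ∧
      Path M ⟨q, List.replicate (n + 1) true, cc⟩ ms2 y ∧ y.w = [] ∧ y.q ∈ M.final ∧
      (∀ i, y.c i = 0) ∧ reversals (ms1 ++ ms2) ≤ c := by
  have h : wd n (n + 1) ∈ LR M c := by rw [hL]; exact mem_L0.2 (Nat.lt_succ_self n)
  obtain ⟨ms, y, hp, hw, hf, hc, hr⟩ := h
  obtain ⟨ms1, ms2, q, cc, e, h1, h2⟩ := hp.split (List.replicate n false)
    (List.replicate (n + 1) true) rfl (by rw [hw]; simp)
  exact ⟨ms1, ms2, q, cc, y, h2, h1, hw, hf, hc, by rw [← e]; exact hr⟩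

/-- larger counters after reading `a ^ n'` than after reading `a ^ n`: the difference is bounded -/
theorem bounded {s : Bool} {d : ℕ} (hd : ∀ (x : Conf M), Reachable M x → ∀ ms y,
      Path M x ms y → (∀ m ∈ ms, m.adv = false) → ms.length ≤ d)
    (hD : Det M s) (hB : PartBlind M) (hL : LR M c = L0) {n n' : ℕ} (hn : n ≤ n')
    {ms1 ms1' : List (Move Bool M.Q M.k)} {q : M.Q} {cc cc' : Fin M.k → ℕ}
    (h1 : ∀ v' : List Bool, Path M (init M (List.replicate n false ++ v')) ms1 ⟨q, v', cc⟩)
    (h1' : ∀ v' : List Bool, Path M (init M (List.replicate n' false ++ v')) ms1' ⟨q, v', cc'⟩)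
    {ms2 : List (Move Bool M.Q M.k)} {y : Conf M}
    (h2 : Path M ⟨q, List.replicate (n' + 1) true, cc'⟩ ms2 y) (hy : y.w = [])
    (hyc : ∀ i, y.c i = 0) (hc : ∀ i, cc i ≤ cc' i) (i : Fin M.k) : cc' i ≤ cc i + d := by
  have h : wd n (n' + 1) ∈ LR M c := by rw [hL]; exact mem_L0.2 (by omega)
  obtain ⟨ms, y1, hp, hw1, -, hc1, -⟩ := h
  -- the accepting computation runs through the configuration after `a ^ n`
  obtain ⟨t, ht⟩ : ∃ t, Path M ⟨q, List.replicate (n' + 1) true, cc⟩ t y1 := by
    have h3 := h1 (List.replicate (n' + 1) true)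
    rcases le_total ms1.length ms.length with hl | hl
    · obtain ⟨t, _, ht⟩ := hD.compare h3 hp (reachable_init _) hl
      exact ⟨t, ht⟩
    · obtain ⟨t, _, ht⟩ := hD.compare hp h3 (reachable_init _) hl
      have := ht.length_le
      rw [hw1] at this
      simp at this
  obtain ⟨t', ht'⟩ := ht.mimic hB (fun i => cc' i - cc i)
  have hX : (⟨q, List.replicate (n' + 1) true, fun i => cc i + (cc' i - cc i)⟩ : Conf M) =
      ⟨q, List.replicate (n' + 1) true, cc'⟩ := by
    have : (fun i => cc i + (cc' i - cc i)) = cc' := by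
      funext i
      have := hc i
      show cc i + (cc' i - cc i) = cc' i
      omega
    rw [this]
  rw [hX] at ht'
  have hreach : Reachable M ⟨q, List.replicate (n' + 1) true, cc'⟩ :=
    (reachable_init _).path (h1' (List.replicate (n' + 1) true))
  have hci := hc i
  rcases le_total t'.length ms2.length with hl | hl
  · obtain ⟨r, _, hr⟩ := hD.compare ht' h2 hreach hl
    obtain ⟨-, hstay⟩ := hr.stay hw1
    have hlen := hd _ (hreach.path ht') _ _ hr hstay
    have hcnt := (hr.count_le i).2
    rw [hyc i] at hcnt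
    have : cc' i - cc i ≤ 0 + r.length := le_trans (by simp) hcnt
    omega
  · obtain ⟨r, _, hr⟩ := hD.compare h2 ht' hreach hl
    obtain ⟨-, hstay⟩ := hr.stay hy
    have hlen := hd _ (hreach.path h2) _ _ hr hstay
    have hcnt := (hr.count_le i).1
    rw [hyc i] at hcnt
    have : cc' i - cc i ≤ 0 + r.length := le_trans (by simp) hcnt
    omega

/-- No deterministic quasi-realtime partially blind machine accepts the language. -/
theorem no_machine {e s : Bool} (hM : DPBlind M e s) : LR M c ≠ L0 := by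
  intro hL
  obtain ⟨⟨d, hd⟩, hD, -, hB⟩ := hM
  have := M.fin
  choose ms1 ms2 q cc y h1 h2 hw hf hc hr using fun n => exists_data (M := M) hL n
  -- the data
  let st : ℕ → Fin M.k → Fin (c + 1) × Option SignType := fun n i =>
    (⟨changes (((ms1 n).map fun m => m.d i).filter fun s => s ≠ 0),
      Nat.lt_succ_of_le ((changes_le_reversals (ms1 n) (ms2 n) i).trans (hr n))⟩,
      (((ms1 n).map fun m => m.d i).filter fun s => s ≠ 0).getLast?)
  have hwqo1 : WellQuasiOrdered
      (fun a b : M.Q × (Fin M.k → Fin (c + 1) × Option SignType) => a = b) :=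
    Finite.wellQuasiOrdered _
  have hwqo2 : WellQuasiOrdered (fun a b : Fin M.k → ℕ => a ≤ b) := wellQuasiOrdered_le
  have hwqo := WellQuasiOrdered.prod hwqo1 hwqo2
  have : IsPreorder ((M.Q × (Fin M.k → Fin (c + 1) × Option SignType)) × (Fin M.k → ℕ))
      (fun a b => a.1 = b.1 ∧ a.2 ≤ b.2) :=
    { refl := fun a => ⟨rfl, le_rfl⟩
      trans := fun a b c h h' => ⟨h.1.trans h'.1, h.2.trans h'.2⟩ }
  obtain ⟨g, hg⟩ := hwqo.exists_monotone_subseq fun n => ((q n, st n), cc n)
  simp only [Prod.mk.injEq] at hg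
  -- the counters are bounded
  have hbd : ∀ j, ∀ i, cc (g j) i ≤ cc (g 0) i + d := by
    intro j i
    have h0 := hg 0 j (Nat.zero_le _)
    have h1' := h1 (g j)
    rw [← h0.1.1] at h1'
    have h2' := h2 (g j)
    rw [← h0.1.1] at h2'
    exact bounded hd hD hB hL (g.monotone (Nat.zero_le j)) (h1 (g 0)) h1' h2' (hw (g j))
      (hc (g j)) h0.2 i
  obtain ⟨j, j', hjj, hcc⟩ : ∃ j j', j < j' ∧ cc (g j) = cc (g j') := by
    have hfin : (Set.Icc (0 : Fin M.k → ℕ) (fun i => cc (g 0) i + d)).Finite := Set.finite_Icc _ _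
    obtain ⟨j, j', hlt, he⟩ := hfin.exists_lt_map_eq_of_forall_mem (f := fun j => cc (g j))
      (fun j => Set.mem_Icc.2 ⟨fun i => Nat.zero_le _, fun i => hbd j i⟩)
    exact ⟨j, j', hlt, he⟩
  obtain ⟨⟨hq, hst⟩, -⟩ := hg j j' hjj.le
  have hlt : g j < g j' := g.strictMono hjj
  -- the machine accepts `a ^ (g j') b ^ (g j + 1)`
  have hacc : wd (g j') (g j + 1) ∈ LR M c := by
    have h1' := h1 (g j') (List.replicate (g j + 1) true)
    rw [← hq, ← hcc] at h1'
    refine ⟨ms1 (g j') ++ ms2 (g j), y (g j), h1'.append (h2 (g j)), hw _, hf _, hc _, ?_⟩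
    rw [reversals_append (ms1 (g j')) (ms1 (g j)) (ms2 (g j))]
    · exact hr (g j)
    · intro i
      have := congrFun hst i
      simp only [st, Prod.mk.injEq, Fin.mk.injEq] at this
      exact ⟨this.1.symm, this.2.symm⟩
  rw [hL, mem_L0] at hacc
  omega

end Pool.Agent.K1H74.PB
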