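import Pool.Agent.K1H74.PB.Basic

/-!
# The language of the words `a ^ n b ^ m` with `n < m`
-/

set_option autoImplicit false

namespace Pool.Agent.K1H74.PB

/-- The word `a ^ n b ^ m`; `a` is `false` and `b` is `true`. -/
def wd (n m : ℕ) : List Bool := List.replicate n false ++ List.replicate m true

/-- The language of the words `a ^ n b ^ m` with `n < m`. -/
def L0 : Set (List Bool) := {w | ∃ n m, n < m ∧ w = wd n m}

/-- the transition function of the machine -/
def nxt : Fin 3 → Option Bool → Bool → Option (Fin 3 × SignType)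
  | 0, some false, _ => some (0, 1)
  | 0, some true, false => some (1, -1)
  | 0, some true, true => some (2, 0)
  | 1, some true, false => some (1, -1)
  | 1, some true, true => some (2, 0)
  | 2, some true, _ => some (2, 0)
  | _, _, _ => none

/-- The deterministic machine with one counter and one reversal. -/
def M0 : Machine Bool where
  Q := Fin 3
  fin := inferInstance
  k := 1
  start := 0
  final := {2}
  moves := {m | nxt m.q m.a (m.z 0) = some (m.p, m.d 0) ∧ m.adv = true}

theorem M0_det (s : Bool) : Det M0 s := by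
  intro x _ m m' y y' h h'
  have hq : m.q = m'.q := h.q.trans h'.q.symm
  have ha : m.a = m'.a := h.a.trans h'.a.symm
  have hz : m.z = m'.z := by
    funext i
    rw [Bool.eq_iff_iff]
    exact (h.z i).trans (h'.z i).symm
  have h1 := h.mem.1
  have h2 := h'.mem.1
  rw [hq, ha, hz, h2] at h1
  simp only [Option.some.injEq, Prod.mk.injEq] at h1
  refine Move.ext hq ha hz h1.1.symm ?_ (h.mem.2.trans h'.mem.2.symm)
  funext i
  have hi : i = (0 : Fin 1) := Subsingleton.elim (α := Fin 1) _ _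
  rw [hi]
  exact h1.2.symm

theorem M0_quasi : Quasi M0 := by
  refine ⟨0, fun x _ ms y h hms => ?_⟩
  cases ms with
  | nil => simp
  | cons m ms =>
    have h1 := (h.mem m (by simp)).2
    have h2 := hms m (by simp)
    rw [h1] at h2
    exact absurd h2 (by simp)

theorem M0_end (e : Bool) : EndOk M0 e := by
  intro _ m hm ha
  have h1 := hm.1
  rw [ha] at h1
  have : ∀ (q : Fin 3) (z : Bool), nxt q none z = none := by decide
  rw [this] at h1
  exact absurd h1 (by simp)

/-- the invariant of the computations -/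
def Inv (u : List Bool) (x : Conf M0) : Prop :=
  (x.q = (0 : Fin 3) ∧ ∃ n, u = List.replicate n false ∧ x.c (0 : Fin 1) = n) ∨
  (x.q = (1 : Fin 3) ∧ ∃ n j, j ≤ n ∧ u = wd n j ∧ x.c (0 : Fin 1) = n - j) ∨
  (x.q = (2 : Fin 3) ∧ ∃ n j, n < j ∧ u = wd n j ∧ x.c (0 : Fin 1) = 0)

theorem nxt_cases {q : Fin 3} {a : Option Bool} {z : Bool} {p : Fin 3} {d : SignType}
    (h : nxt q a z = some (p, d)) :
    (q = 0 ∧ a = some false ∧ p = 0 ∧ d = 1) ∨
    (q = 0 ∧ a = some true ∧ z = false ∧ p = 1 ∧ d = -1) ∨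
    (q = 0 ∧ a = some true ∧ z = true ∧ p = 2 ∧ d = 0) ∨
    (q = 1 ∧ a = some true ∧ z = false ∧ p = 1 ∧ d = -1) ∨
    (q = 1 ∧ a = some true ∧ z = true ∧ p = 2 ∧ d = 0) ∨
    (q = 2 ∧ a = some true ∧ p = 2 ∧ d = 0) := by
  have hq : q = 0 ∨ q = 1 ∨ q = 2 := by
    fin_cases q <;> simp
  rcases hq with rfl | rfl | rfl <;> rcases a with _ | _ | _ <;> cases z <;>
    simp only [nxt, Option.some.injEq, Prod.mk.injEq, reduceCtorEq] at h <;>
    obtain ⟨h1, h2⟩ := h <;> subst h1 <;> subst h2 <;> simp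

theorem ne3 (a b : Fin 3) (h : a = b) (h' : a ≠ b) : False := h' h

theorem wd_succ (n j : ℕ) : wd n j ++ [true] = wd n (j + 1) := by
  simp [wd, List.append_assoc, List.replicate_succ']

theorem inv_step {u : List Bool} {x y : Conf M0} {m : Move Bool (Fin 3) 1}
    (h : StepBy M0 m x y) (hI : Inv u x) :
    ∃ a, x.w = a :: y.w ∧ Inv (u ++ [a]) y := by
  have h1 := h.mem.1
  have h2 := h.mem.2
  have hw : y.w = x.w.tail := by rw [h.w, if_pos h2]
  have hne := h.adv h2
  obtain ⟨a, l, hal⟩ := List.exists_cons_of_ne_nil hne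
  have ha : m.a = some a := by rw [h.a, hal]; rfl
  have hyw : y.w = l := by rw [hw, hal]; rfl
  refine ⟨a, by rw [hal, hyw], ?_⟩
  have hq : x.q = m.q := h.q.symm
  have hp : y.q = m.p := h.p
  have hc := h.c (0 : Fin 1)
  have hz := h.z (0 : Fin 1)
  rcases nxt_cases h1 with ⟨q1, a1, p1, d1⟩ | ⟨q1, a1, z1, p1, d1⟩ | ⟨q1, a1, z1, p1, d1⟩ |
    ⟨q1, a1, z1, p1, d1⟩ | ⟨q1, a1, z1, p1, d1⟩ | ⟨q1, a1, p1, d1⟩
  · -- reading a
    rw [ha] at a1
    obtain rfl : a = false := by simpa using a1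
    rcases hI with ⟨_, n, hu, hn⟩ | ⟨hq', _⟩ | ⟨hq', _⟩
    · left
      refine ⟨hp.trans p1, n + 1, by rw [hu, List.replicate_succ'], ?_⟩
      rw [d1] at hc
      have : ((1 : SignType) : ℤ) = 1 := rfl
      rw [this] at hc
      omega
    · rw [hq, q1] at hq'; exact (ne3 _ _ hq' (by decide)).elim
    · rw [hq, q1] at hq'; exact (ne3 _ _ hq' (by decide)).elim
  · rw [ha] at a1
    obtain rfl : a = true := by simpa using a1
    have hc0 : x.c (0 : Fin 1) ≠ 0 := fun h0 => by
      have := hz.2 h0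
      rw [z1] at this
      exact absurd this (by simp)
    rw [d1] at hc
    have : ((-1 : SignType) : ℤ) = -1 := rfl
    rw [this] at hc
    rcases hI with ⟨_, n, hu, hn⟩ | ⟨hq', _⟩ | ⟨hq', _⟩
    · right; left
      refine ⟨hp.trans p1, n, 1, by omega, by rw [hu]; simp [wd], by omega⟩
    · rw [hq, q1] at hq'; exact (ne3 _ _ hq' (by decide)).elim
    · rw [hq, q1] at hq'; exact (ne3 _ _ hq' (by decide)).elim
  · rw [ha] at a1
    obtain rfl : a = true := by simpa using a1
    have hc0 : x.c (0 : Fin 1) = 0 := hz.1 z1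
    rw [d1] at hc
    have : ((0 : SignType) : ℤ) = 0 := rfl
    rw [this] at hc
    rcases hI with ⟨_, n, hu, hn⟩ | ⟨hq', _⟩ | ⟨hq', _⟩
    · right; right
      refine ⟨hp.trans p1, n, 1, by omega, by rw [hu]; simp [wd], by omega⟩
    · rw [hq, q1] at hq'; exact (ne3 _ _ hq' (by decide)).elim
    · rw [hq, q1] at hq'; exact (ne3 _ _ hq' (by decide)).elim
  · rw [ha] at a1
    obtain rfl : a = true := by simpa using a1
    have hc0 : x.c (0 : Fin 1) ≠ 0 := fun h0 => by
      have := hz.2 h0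
      rw [z1] at this
      exact absurd this (by simp)
    rw [d1] at hc
    have : ((-1 : SignType) : ℤ) = -1 := rfl
    rw [this] at hc
    rcases hI with ⟨hq', _⟩ | ⟨_, n, j, hj, hu, hn⟩ | ⟨hq', _⟩
    · rw [hq, q1] at hq'; exact (ne3 _ _ hq' (by decide)).elim
    · right; left
      refine ⟨hp.trans p1, n, j + 1, by omega, by rw [hu, wd_succ], by omega⟩
    · rw [hq, q1] at hq'; exact (ne3 _ _ hq' (by decide)).elim
  · rw [ha] at a1
    obtain rfl : a = true := by simpa using a1
    have hc0 : x.c (0 : Fin 1) = 0 := hz.1 z1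
    rw [d1] at hc
    have : ((0 : SignType) : ℤ) = 0 := rfl
    rw [this] at hc
    rcases hI with ⟨hq', _⟩ | ⟨_, n, j, hj, hu, hn⟩ | ⟨hq', _⟩
    · rw [hq, q1] at hq'; exact (ne3 _ _ hq' (by decide)).elim
    · right; right
      refine ⟨hp.trans p1, n, j + 1, by omega, by rw [hu, wd_succ], by omega⟩
    · rw [hq, q1] at hq'; exact (ne3 _ _ hq' (by decide)).elim
  · rw [ha] at a1
    obtain rfl : a = true := by simpa using a1
    rw [d1] at hc
    have : ((0 : SignType) : ℤ) = 0 := rfl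
    rw [this] at hc
    rcases hI with ⟨hq', _⟩ | ⟨hq', _⟩ | ⟨_, n, j, hj, hu, hn⟩
    · rw [hq, q1] at hq'; exact (ne3 _ _ hq' (by decide)).elim
    · rw [hq, q1] at hq'; exact (ne3 _ _ hq' (by decide)).elim
    · right; right
      refine ⟨hp.trans p1, n, j + 1, by omega, by rw [hu, wd_succ], by omega⟩

theorem inv_path {x y : Conf M0} {ms : List (Move Bool M0.Q M0.k)} (h : Path M0 x ms y) :
    ∀ u, Inv u x → ∃ u', u ++ x.w = u' ++ y.w ∧ Inv u' y := by
  induction h with
  | nil x => exact fun u hu => ⟨u, rfl, hu⟩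
  | @cons x y1 z m ms hs t ih =>
    intro u hu
    obtain ⟨a, ha1, ha2⟩ := inv_step hs hu
    obtain ⟨u', h1, h2⟩ := ih _ ha2
    refine ⟨u', ?_, h2⟩
    rw [← h1, ha1]
    simp

theorem LR_sub (c : ℕ) : LR M0 c ⊆ L0 := by
  rintro w ⟨ms, y, hp, hw, hf, _, _⟩
  obtain ⟨u, hu1, hu2⟩ := inv_path hp [] (Or.inl ⟨rfl, 0, rfl, rfl⟩)
  rw [List.nil_append, hw, List.append_nil] at hu1
  have hu1' : w = u := hu1
  have hf' : y.q = (2 : Fin 3) := hf
  rcases hu2 with ⟨hq', _⟩ | ⟨hq', _⟩ | ⟨_, n, j, hj, hu, _⟩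
  · rw [hq'] at hf'; exact (ne3 _ _ hf' (by decide)).elim
  · rw [hq'] at hf'; exact (ne3 _ _ hf' (by decide)).elim
  · exact ⟨n, j, hj, hu1'.trans hu⟩

/-- one step of the machine -/
theorem mk_step (q p : Fin 3) (a : Bool) (v : List Bool) (c c' : ℕ) (d : SignType)
    (h : nxt q (some a) (decide (c = 0)) = some (p, d)) (hc : (c' : ℤ) = c + (d : ℤ)) :
    ∃ m : Move Bool (Fin 3) 1, m.d 0 = d ∧
      StepBy M0 m ⟨q, a :: v, fun _ => c⟩ ⟨p, v, fun _ => c'⟩ := by
  refine ⟨⟨q, some a, fun _ => decide (c = 0), p, fun _ => d, true⟩, rfl, ?_⟩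
  refine ⟨⟨h, rfl⟩, rfl, rfl, fun i => by simp, rfl, fun i => hc, by simp, fun _ => by simp⟩

theorem path_a (n : ℕ) : ∀ (v : List Bool) (c : ℕ), ∃ ms : List (Move Bool (Fin 3) 1),
    ms.map (fun m => m.d 0) = List.replicate n 1 ∧
    Path M0 ⟨(0 : Fin 3), List.replicate n false ++ v, fun _ => c⟩ ms
      ⟨(0 : Fin 3), v, fun _ => c + n⟩ := by
  induction n with
  | zero => exact fun v c => ⟨[], rfl, Path.nil _⟩
  | succ n ih =>
    intro v c
    obtain ⟨m, hm1, hm2⟩ := mk_step 0 0 false (List.replicate n false ++ v) c (c + 1) 1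
      (by cases decide (c = 0) <;> rfl) (by
        have : ((1 : SignType) : ℤ) = 1 := rfl
        rw [this]; push_cast; ring)
    obtain ⟨ms, h1, h2⟩ := ih v (c + 1)
    refine ⟨m :: ms, by rw [List.map_cons, hm1, h1]; rfl, ?_⟩
    have e : (fun _ : Fin 1 => c + (n + 1)) = fun _ : Fin 1 => c + 1 + n := by
      funext _; ring
    show Path M0 ⟨(0 : Fin 3), List.replicate (n + 1) false ++ v, fun _ => c⟩ (m :: ms)
      ⟨(0 : Fin 3), v, (fun _ : Fin 1 => c + (n + 1))⟩
    rw [e, List.replicate_succ, List.cons_append]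
    exact Path.cons hm2 h2

theorem path_b (n : ℕ) : ∀ (v : List Bool), ∃ ms : List (Move Bool (Fin 3) 1),
    ms.map (fun m => m.d 0) = List.replicate n (-1) ∧
    Path M0 ⟨(1 : Fin 3), List.replicate n true ++ v, fun _ => n⟩ ms
      ⟨(1 : Fin 3), v, fun _ => 0⟩ := by
  induction n with
  | zero => exact fun v => ⟨[], rfl, Path.nil _⟩
  | succ n ih =>
    intro v
    obtain ⟨m, hm1, hm2⟩ := mk_step 1 1 true (List.replicate n true ++ v) (n + 1) n (-1)
      (by simp [nxt]) (by
        have : ((-1 : SignType) : ℤ) = -1 := rfl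
        rw [this]; push_cast; ring)
    obtain ⟨ms, h1, h2⟩ := ih v
    exact ⟨m :: ms, by rw [List.map_cons, hm1, h1]; rfl, Path.cons hm2 h2⟩

theorem path_c (n : ℕ) : ∃ ms : List (Move Bool (Fin 3) 1),
    ms.map (fun m => m.d 0) = List.replicate n 0 ∧
    Path M0 ⟨(2 : Fin 3), List.replicate n true, fun _ => 0⟩ ms
      ⟨(2 : Fin 3), [], fun _ => 0⟩ := by
  induction n with
  | zero => exact ⟨[], rfl, Path.nil _⟩
  | succ n ih =>
    obtain ⟨m, hm1, hm2⟩ := mk_step 2 2 true (List.replicate n true) 0 0 0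
      (by simp [nxt]) rfl
    obtain ⟨ms, h1, h2⟩ := ih
    exact ⟨m :: ms, by rw [List.map_cons, hm1, h1]; rfl, Path.cons hm2 h2⟩

theorem sub_LR (c : ℕ) (hc : 1 ≤ c) : L0 ⊆ LR M0 c := by
  rintro w ⟨n, j, hj, rfl⟩
  obtain ⟨r, rfl⟩ : ∃ r, j = n + 1 + r := ⟨j - n - 1, by omega⟩
  -- the input after the letters `a`
  have hv : ∀ n r : ℕ, List.replicate (n + 1 + r) true =
      List.replicate n true ++ (true :: List.replicate r true) := by
    intro n r
    rw [← List.replicate_succ, ← List.replicate_add]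
    congr 1
    ring
  obtain ⟨ms1, e1, p1⟩ := path_a n (List.replicate (n + 1 + r) true) 0
  obtain ⟨ms3, e3, p3⟩ := path_c r
  -- the computation on the letters `b`
  have hmid : ∃ ms2 : List (Move Bool (Fin 3) 1),
      ms2.map (fun m => m.d 0) = List.replicate n (-1) ++ [0] ∧
      Path M0 ⟨(0 : Fin 3), List.replicate (n + 1 + r) true, fun _ => 0 + n⟩ ms2
        ⟨(2 : Fin 3), List.replicate r true, fun _ => 0⟩ := by
    cases n with
    | zero =>
      obtain ⟨m, hm1, hm2⟩ := mk_step 0 2 true (List.replicate r true) 0 0 0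
        (by simp [nxt]) rfl
      refine ⟨[m], by simp [hm1], ?_⟩
      have := hv 0 r
      rw [this]
      exact Path.cons hm2 (Path.nil _)
    | succ n =>
      obtain ⟨m, hm1, hm2⟩ := mk_step 0 1 true
        (List.replicate n true ++ (true :: List.replicate r true)) (n + 1) n (-1)
        (by simp [nxt]) (by
          have : ((-1 : SignType) : ℤ) = -1 := rfl
          rw [this]; push_cast; ring)
      obtain ⟨ms, h1, h2⟩ := path_b n (true :: List.replicate r true)
      obtain ⟨m', hm1', hm2'⟩ := mk_step 1 2 true (List.replicate r true) 0 0 0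
        (by simp [nxt]) rfl
      refine ⟨m :: (ms ++ [m']), ?_, ?_⟩
      · rw [List.map_cons, List.map_append, hm1, h1]
        simp [hm1', List.replicate_succ]
      · have e : (fun _ : Fin 1 => 0 + (n + 1)) = fun _ : Fin 1 => n + 1 := by
          funext _; ring
        have := hv (n + 1) r
        rw [this]
        show Path M0 ⟨(0 : Fin 3), List.replicate (n + 1) true ++ true :: List.replicate r true,
          (fun _ : Fin 1 => 0 + (n + 1))⟩ _ _
        rw [e, List.replicate_succ, List.cons_append]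
        exact Path.cons hm2 (h2.append (Path.cons hm2' (Path.nil _)))
  obtain ⟨ms2, e2, p2⟩ := hmid
  refine ⟨ms1 ++ (ms2 ++ ms3), ⟨(2 : Fin 3), [], fun _ => 0⟩, p1.append (p2.append p3), rfl, rfl,
    fun _ => rfl, ?_⟩
  unfold reversals
  have hk : ∀ f : Fin 1 → ℕ, ∑ i : Fin 1, f i = f 0 := fun f => by simp
  show ∑ i : Fin 1, changes (((ms1 ++ (ms2 ++ ms3)).map fun m => m.d i).filter fun s => s ≠ 0) ≤ c
  rw [hk]
  rw [List.map_append, List.map_append, e1, e2, e3, List.filter_append, List.filter_append,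
    List.filter_append]
  have f1 : (List.replicate n (1 : SignType)).filter (fun s => s ≠ 0) = List.replicate n 1 := by
    rw [List.filter_eq_self]
    intro s hs
    rw [List.eq_of_mem_replicate hs]
    decide
  have f2 : (List.replicate n (-1 : SignType)).filter (fun s => s ≠ 0) =
      List.replicate n (-1) := by
    rw [List.filter_eq_self]
    intro s hs
    rw [List.eq_of_mem_replicate hs]
    decide
  have f3 : (List.replicate r (0 : SignType)).filter (fun s => s ≠ 0) = [] := by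
    rw [List.filter_eq_nil_iff]
    intro s hs
    rw [List.eq_of_mem_replicate hs]
    decide
  have f4 : ([0] : List SignType).filter (fun s => s ≠ 0) = [] := by decide
  rw [f1, f2, f3, f4, List.append_nil, List.append_nil]
  exact (changes_two n n 1 (-1)).trans hc

theorem LR_M0 (c : ℕ) (hc : 1 ≤ c) : LR M0 c = L0 :=
  Set.Subset.antisymm (LR_sub c) (sub_LR c hc)

end Pool.Agent.K1H74.PB
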