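import Pool.Agent.K1H74.PB.Basic

/-!
# Computations without reversals
-/

set_option autoImplicit false

namespace Pool.Agent.K1H74.PB

variable {A : Type} {M : Machine A}

theorem Path.sum {x y : Conf M} {ms : List (Move A M.Q M.k)} (h : Path M x ms y) (i : Fin M.k) :
    (y.c i : ℤ) = x.c i + (ms.map fun m => ((m.d i : SignType) : ℤ)).sum := by
  induction h with
  | nil x => simp
  | @cons x y z m ms hs t ih =>
    rw [ih, hs.c i, List.map_cons, List.sum_cons]
    ring

theorem all_zero {l : List SignType} (h : changes (l.filter fun s => s ≠ 0) = 0)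
    (hs : (l.map fun s => ((s : SignType) : ℤ)).sum = 0) : ∀ s ∈ l, s = 0 := by
  by_contra hcon
  push Not at hcon
  obtain ⟨t, ht, ht0⟩ := hcon
  have hmem : ∀ s ∈ l, s = 0 ∨ s = t := by
    intro s hs'
    by_cases h0 : s = 0
    · exact Or.inl h0
    · right
      have h1 := changes_zero h s (by simp [hs', h0])
      have h2 := changes_zero h t (by simp [ht, ht0])
      rw [← h2] at h1
      simpa using h1
  have htt : ((t : SignType) : ℤ) * (t : ℤ) = 1 := by
    cases t
    · exact absurd rfl ht0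
    · rfl
    · rfl
  have h1 : ∀ x ∈ l.map (fun s => ((s : SignType) : ℤ) * (t : ℤ)), 0 ≤ x := by
    intro x hx
    obtain ⟨s, hs1, rfl⟩ := List.mem_map.1 hx
    rcases hmem s hs1 with rfl | rfl
    · have : ((0 : SignType) : ℤ) = 0 := rfl
      rw [this, zero_mul]
    · rw [htt]
      exact zero_le_one
  have h2 := List.single_le_sum h1 1 (List.mem_map.2 ⟨t, ht, htt⟩)
  rw [List.sum_map_mul_right, hs, zero_mul] at h2
  exact absurd h2 (by norm_num)

/-- The machine which makes those moves of `M` which are possible with all counters zero and do not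
change the counters. -/
def freeze (M : Machine A) : Machine A where
  Q := M.Q
  fin := M.fin
  k := M.k
  start := M.start
  final := M.final
  moves := {m | { m with z := fun _ => true } ∈ M.moves ∧ ∀ i, m.d i = 0}

theorem freeze_step {m : Move A M.Q M.k} {x y : Conf (freeze M)} (h : StepBy (freeze M) m x y) :
    StepBy M { m with z := fun _ => true } ⟨x.q, x.w, fun _ => 0⟩ ⟨y.q, y.w, fun _ => 0⟩ ∧
      y.c = x.c := by
  have hd : ∀ i, m.d i = 0 := h.mem.2
  refine ⟨⟨h.mem.1, h.q, h.a, fun i => by simp, h.p, fun i => ?_, h.w, h.adv⟩, ?_⟩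
  · show ((0 : ℕ) : ℤ) = ((0 : ℕ) : ℤ) + ((m.d i : SignType) : ℤ)
    rw [hd i]
    rfl
  · funext i
    have h1 := h.c i
    rw [hd i] at h1
    have : ((0 : SignType) : ℤ) = 0 := rfl
    rw [this, add_zero] at h1
    exact_mod_cast h1

theorem freeze_path {ms : List (Move A M.Q M.k)} {x y : Conf (freeze M)}
    (h : Path (freeze M) x ms y) :
    Path M ⟨x.q, x.w, fun _ => 0⟩ (ms.map fun m => { m with z := fun _ => true })
      ⟨y.q, y.w, fun _ => 0⟩ ∧ y.c = x.c := by
  induction h with
  | nil x => exact ⟨Path.nil _, rfl⟩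
  | cons hs _ ih =>
    obtain ⟨h1, h2⟩ := freeze_step hs
    exact ⟨Path.cons h1 ih.1, ih.2.trans h2⟩

theorem freeze_reachable {x : Conf (freeze M)} (h : Reachable (freeze M) x) :
    Reachable M ⟨x.q, x.w, fun _ => 0⟩ := by
  obtain ⟨w, ms, hp⟩ := h
  exact ⟨w, _, (freeze_path hp).1⟩

theorem path_freeze {ms : List (Move A M.Q M.k)} {x y : Conf M} (h : Path M x ms y)
    (hx : ∀ i, x.c i = 0) (hms : ∀ m ∈ ms, ∀ i, m.d i = 0) :
    Path (freeze M) ⟨x.q, x.w, fun _ => 0⟩ ms ⟨y.q, y.w, fun _ => 0⟩ := by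
  induction h with
  | nil x => exact Path.nil _
  | @cons x y z m ms hs t ih =>
    have hd : ∀ i, m.d i = 0 := hms m (by simp)
    have h0 : ((0 : SignType) : ℤ) = 0 := rfl
    have hy : ∀ i, y.c i = 0 := by
      intro i
      have h1 := hs.c i
      rw [hd i, hx i, h0] at h1
      simpa using h1
    refine Path.cons ?_ (ih hy fun m' hm' => hms m' (by simp [hm']))
    have hz : m.z = fun _ => true := by
      funext i
      exact (hs.z i).2 (hx i)
    refine ⟨⟨?_, hd⟩, hs.q, hs.a, fun i => ?_, hs.p, fun i => ?_, hs.w, hs.adv⟩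
    · rw [← hz]
      exact hs.mem
    · rw [hz]
      simp
    · show ((0 : ℕ) : ℤ) = ((0 : ℕ) : ℤ) + ((m.d i : SignType) : ℤ)
      rw [hd i]
      rfl

theorem LR_freeze : LR (freeze M) 0 = LR M 0 := by
  apply Set.Subset.antisymm
  · rintro w ⟨ms, y, hp, hw, hf, _, _⟩
    have hmem := hp.mem
    refine ⟨_, _, (freeze_path hp).1, hw, hf, fun _ => rfl, ?_⟩
    unfold reversals
    refine le_of_eq (Finset.sum_eq_zero fun i _ => ?_)
    have : (((ms.map fun m : Move A M.Q M.k => { m with z := fun _ => true }).map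
        fun m => m.d i).filter fun s => s ≠ 0) = [] := by
      rw [List.filter_eq_nil_iff]
      intro s hs
      obtain ⟨m1, hm1, rfl⟩ := List.mem_map.1 hs
      obtain ⟨m, hm, rfl⟩ := List.mem_map.1 hm1
      have : m.d i = 0 := (hmem m hm).2 i
      simp [this]
    rw [this]
    rfl
  · rintro w ⟨ms, y, hp, hw, hf, hc, hr⟩
    have hms : ∀ m ∈ ms, ∀ i, m.d i = 0 := by
      intro m hm i
      have h1 : reversals ms = 0 := Nat.le_zero.1 hr
      have h2 : changes ((ms.map fun m => m.d i).filter fun s => s ≠ 0) = 0 :=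
        (Finset.sum_eq_zero_iff.1 h1) i (Finset.mem_univ i)
      have h3 := hp.sum i
      rw [hc i] at h3
      have h4 : ((ms.map fun m => m.d i).map fun s => ((s : SignType) : ℤ)).sum = 0 := by
        rw [List.map_map]
        have h5 : ((init M w).c i : ℤ) = 0 := rfl
        rw [h5, zero_add] at h3
        exact h3.symm
      exact all_zero h2 h4 _ (List.mem_map.2 ⟨m, hm, rfl⟩)
    exact ⟨ms, _, path_freeze hp (fun _ => rfl) hms, hw, hf, fun _ => rfl, hr⟩

theorem freeze_DPBlind {e s : Bool} (hM : DCounter M e s) : DPBlind (freeze M) e s := by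
  obtain ⟨⟨d, hd⟩, hD, hE⟩ := hM
  refine ⟨⟨d, fun x hx ms y hp hms => ?_⟩, ?_, ?_, ?_⟩
  · have := hd _ (freeze_reachable hx) _ _ (freeze_path hp).1 (by
      intro m hm
      obtain ⟨m', hm', rfl⟩ := List.mem_map.1 hm
      exact hms m' hm')
    exact (List.length_map (as := ms) _).symm.le.trans this
  · intro x hx m m' y y' h h'
    have h1 := hD ⟨x.q, x.w, fun _ => 0⟩ (fun hs => freeze_reachable (hx hs)) _ _ _ _
      (freeze_step h).1 (freeze_step h').1
    have hz : m.z = m'.z := by
      funext i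
      rw [Bool.eq_iff_iff]
      exact (h.z i).trans (h'.z i).symm
    have h2 := congrArg Move.q h1
    have h3 := congrArg Move.a h1
    have h4 := congrArg Move.p h1
    have h5 := congrArg Move.d h1
    have h6 := congrArg Move.adv h1
    exact Move.ext h2 h3 hz h4 h5 h6
  · intro he m hm
    exact hE he { m with z := fun _ => true } hm.1
  · intro m hm z
    exact ⟨hm.1, hm.2⟩

theorem langs_zero (A : Type) (e s : Bool) :
    Langs A 0 (fun M => DPBlind M e s) = Langs A 0 (fun M => DCounter M e s) := by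
  apply Set.Subset.antisymm
  · rintro L ⟨M, hM, rfl⟩
    exact ⟨M, ⟨hM.1, hM.2.1, hM.2.2.1⟩, rfl⟩
  · rintro L ⟨M, hM, rfl⟩
    exact ⟨freeze M, freeze_DPBlind hM, LR_freeze.symm⟩

end Pool.Agent.K1H74.PB
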